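import Pool.Agent.H13.EC.Defs

/-!
# ASK: in a finite extension only finitely many Artin-Schreier classes die
-/

set_option autoImplicit false

namespace Pool.Agent.H89.EC

open Polynomial Pool.Agent.H13.EC

universe u

/-- Elements of the simple extension by a root of a quadratic polynomial. -/
theorem ask_repr (N M : Type u) [Field N] [Field M] [Algebra N M] (r0 : M) (c0 : N)
    (hr : r0 ^ 2 + r0 = algebraMap N M c0) (w : M) (hw : w ∈ IntermediateField.adjoin N {r0}) :
    ∃ a b : N, w = algebraMap N M a + algebraMap N M b * r0 := by
  set q : N[X] := X ^ 2 + X - C c0 with hq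
  have hqm : q.Monic := by
    have h : q = X ^ 2 + (X - C c0) := by rw [hq]; ring
    rw [h]
    apply Polynomial.monic_X_pow_add
    rw [Polynomial.degree_X_sub_C]
    norm_num
  have hqd : q.natDegree = 2 := by
    rw [hq]
    compute_degree!
  have hq0 : aeval r0 q = 0 := by
    rw [hq]
    simp only [map_sub, map_add, map_pow, aeval_X, aeval_C]
    rw [hr, sub_self]
  have hint : IsIntegral N r0 := ⟨q, hqm, hq0⟩
  have hw' : w ∈ (IntermediateField.adjoin N {r0}).toSubalgebra := hw
  rw [IntermediateField.adjoin_simple_toSubalgebra_of_isAlgebraic hint.isAlgebraic,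
    Algebra.adjoin_singleton_eq_range_aeval] at hw'
  obtain ⟨p, hp⟩ := hw'
  have hp' : aeval r0 p = w := hp
  have e1 : aeval r0 (p %ₘ q) = w := by
    rw [← hp']
    exact Polynomial.aeval_modByMonic_eq_self_of_root hq0
  have hdeg : (p %ₘ q).degree ≤ 1 := by
    have h1 : (p %ₘ q).degree < q.degree := Polynomial.degree_modByMonic_lt p hqm
    rw [Polynomial.degree_eq_natDegree hqm.ne_zero, hqd] at h1
    exact Order.le_of_lt_succ h1
  rw [Polynomial.eq_X_add_C_of_degree_le_one hdeg] at e1
  simp only [map_add, map_mul, aeval_C, aeval_X] at e1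
  exact ⟨(p %ₘ q).coeff 0, (p %ₘ q).coeff 1, by rw [← e1]; ring⟩

theorem ask_main (M : Type u) [Field M] : ∀ (n : ℕ) (N : Type u) [Field N] [CharP N 2]
    [Algebra N M] [FiniteDimensional N M] (c : Fin n → N),
    (∀ s : Finset (Fin n), s.Nonempty → ¬ ∃ r : N, r ^ 2 + r = ∑ i ∈ s, c i) →
    (∀ i, ∃ r : M, r ^ 2 + r = algebraMap N M (c i)) → 2 ^ n ≤ Module.finrank N M := by
  intro n
  induction n with
  | zero =>
    intro N _ _ _ _ c _ _
    rw [pow_zero]
    exact Module.finrank_pos
  | succ n ih =>
    intro N _ _ _ _ c hc hM
    obtain ⟨r0, hr0⟩ := hM 0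
    have hchM : CharP M 2 := charP_of_injective_algebraMap (algebraMap N M).injective 2
    have h2 : (2 : M) = 0 := by
      have := CharP.cast_eq_zero M 2
      exact_mod_cast this
    have h2N : (2 : N) = 0 := by
      have := CharP.cast_eq_zero N 2
      exact_mod_cast this
    have hnot : ∀ ρ : N, algebraMap N M ρ ≠ r0 := by
      intro ρ h
      apply hc {0} (Finset.singleton_nonempty 0)
      refine ⟨ρ, ?_⟩
      rw [Finset.sum_singleton]
      apply (algebraMap N M).injective
      rw [map_add, map_pow, h, hr0]
    let N1 : IntermediateField N M := IntermediateField.adjoin N {r0}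
    have hch1 : CharP N1 2 := charP_of_injective_algebraMap (algebraMap N N1).injective 2
    have h21 : 2 ≤ Module.finrank N N1 := by
      have h0 : 0 < Module.finrank N N1 := Module.finrank_pos
      have h1 : Module.finrank N N1 ≠ 1 := by
        intro h
        have h' := IntermediateField.finrank_adjoin_simple_eq_one_iff.mp h
        rw [IntermediateField.mem_bot] at h'
        obtain ⟨ρ, hρ⟩ := h'
        exact hnot ρ hρ
      omega
    have key : 2 ^ n ≤ Module.finrank N1 M := by
      apply ih N1 (fun i => algebraMap N N1 (c i.succ))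
      · rintro s hs ⟨w, hw⟩
        obtain ⟨a, b, hab⟩ := ask_repr N M r0 (c 0) hr0 (w : M) w.2
        have hw2 : (w : M) ^ 2 + w = algebraMap N M (∑ i ∈ s, c i.succ) := by
          have h := congrArg (algebraMap N1 M) hw
          rw [map_add, map_pow, map_sum] at h
          rw [map_sum]
          have e1 : (algebraMap N1 M) w = (w : M) := rfl
          rw [e1] at h
          rw [h]
          apply Finset.sum_congr rfl
          intro i _
          exact (IsScalarTower.algebraMap_apply N N1 M (c i.succ)).symm
        set S : N := ∑ i ∈ s, c i.succ with hS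
        have e2 : (w : M) ^ 2 + w = algebraMap N M (a ^ 2 + a + b ^ 2 * c 0) +
            algebraMap N M (b ^ 2 + b) * r0 := by
          rw [hab]
          simp only [map_add, map_mul, map_pow]
          rw [← hr0]
          linear_combination (algebraMap N M a * algebraMap N M b * r0 -
            (algebraMap N M b) ^ 2 * r0) * h2
        have e3 : algebraMap N M (b ^ 2 + b) * r0 =
            algebraMap N M (S - (a ^ 2 + a + b ^ 2 * c 0)) := by
          rw [map_sub, ← hw2, e2]
          ring
        have hb : b ^ 2 + b = 0 := by
          by_contra hb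
          have hb' : algebraMap N M (b ^ 2 + b) ≠ 0 := by
            intro h
            exact hb ((map_eq_zero_iff _ (algebraMap N M).injective).mp h)
          apply hnot ((b ^ 2 + b)⁻¹ * (S - (a ^ 2 + a + b ^ 2 * c 0)))
          rw [map_mul, ← e3, map_inv₀, ← mul_assoc, inv_mul_cancel₀ hb', one_mul]
        rw [hb, map_zero, zero_mul] at e3
        have e4 : S = a ^ 2 + a + b ^ 2 * c 0 := by
          have h := (map_eq_zero_iff _ (algebraMap N M).injective).mp e3.symm
          exact sub_eq_zero.mp h
        have hb2 : b = 0 ∨ b = 1 := by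
          have h : b * (b + 1) = 0 := by rw [← hb]; ring
          rcases mul_eq_zero.mp h with h | h
          · exact Or.inl h
          · right
            linear_combination h - h2N
        rcases hb2 with hb0 | hb1
        · apply hc (s.map (Fin.succEmb n)) (Finset.Nonempty.map hs)
          refine ⟨a, ?_⟩
          rw [Finset.sum_map]
          have : ∑ x ∈ s, c ((Fin.succEmb n) x) = S := rfl
          rw [this, e4, hb0]
          ring
        · apply hc (Finset.cons 0 (s.map (Fin.succEmb n)) (by
            simp [Fin.succ_ne_zero])) (Finset.cons_nonempty _)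
          refine ⟨a, ?_⟩
          rw [Finset.sum_cons, Finset.sum_map]
          have : ∑ x ∈ s, c ((Fin.succEmb n) x) = S := rfl
          rw [this, e4, hb1]
          linear_combination -(c 0) * h2N
      · intro i
        obtain ⟨r, hr⟩ := hM i.succ
        exact ⟨r, by rw [hr]; exact IsScalarTower.algebraMap_apply N N1 M (c i.succ)⟩
    calc 2 ^ (n + 1) = 2 * 2 ^ n := by ring
      _ ≤ Module.finrank N N1 * Module.finrank N1 M := Nat.mul_le_mul h21 key
      _ = Module.finrank N M := Module.finrank_mul_finrank N N1 M

theorem ask : T_ASK.{u} := by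
  intro N M _ _ _ _ _
  refine ⟨Module.finrank N M, fun c hc => ?_⟩
  by_contra hcon
  push Not at hcon
  have h := ask_main M (Module.finrank N M + 1) N c hc hcon
  have h3 : Module.finrank N M + 1 < 2 ^ (Module.finrank N M + 1) := Nat.lt_two_pow_self
  omega

end Pool.Agent.H89.EC
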